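import Pool.Agent.Q161.ESJ.Stm1
import Pool.Agent.Q153.ESF.K90F

/-!
# Project ESJ (helper161), job KDJ: every cocycle has Kummer data

Adapted from `Pool/Agent/Q176/ESG/KDJ.lean`.
-/

set_option autoImplicit false

namespace Pool.Agent.Q26.ESJ

open Polynomial NumberField

open Pool.Agent.Y723.HJ (CR OddM HF nm cl val del)
open Pool.Agent.Q161.ESJ

/-- the image of a zero of `h` is a zero of `h` -/
lemma mem_roots_emb {F : Type} [Field F] (H : HP F) {L : Type} [Field L] [Algebra F L] {θ : L}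
    (h : SetF H L θ) (E : Type) [Field E] [Algebra F E] (e : L →ₐ[F] E) : e θ ∈ (pol H E).roots := by
  have hm : (pol H E).Monic := (instOddM H E).monic
  rw [mem_roots hm.ne_zero, IsRoot.def]
  change eval (e θ) (H.pol.map (algebraMap F E)) = 0
  rw [eval_map_algebraMap, aeval_algHom_apply, h.root, map_zero]

/-- JOB KDJ -/
theorem kdj (hS : S_SGP) : S_KDJ := by
  intro F _ _ H _ L _ _ θ hθ f hf hf2
  obtain ⟨s1, s2, -, -, -, s6⟩ := hS F H (AlgebraicClosure F)
  have hr : ∀ e : L →ₐ[F] AlgebraicClosure F, e θ ∈ (pol H (AlgebraicClosure F)).roots :=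
    fun e => mem_roots_emb H hθ (AlgebraicClosure F) e
  have hfin : FiniteDimensional F L := by
    apply Module.finite_of_finrank_pos
    rw [hθ.deg]
    exact H.odd.pos
  obtain ⟨γ, δ, h3, h4, h5⟩ := Pool.Agent.Q153.ESF.k90f F L
    (fun σ e => sg H (f σ) (e θ))
    (fun e => hf.1.comp (fun T => sg H T (e θ)))
    (fun σ e => s1 _ (hf2 σ) _ (hr e))
    (by
      intro σ τ e
      show sg H (f (σ * τ)) (e θ) = sg H (f σ) (e θ) * sg H (f τ) (σ.symm (e θ))
      have h7 : act H σ (f τ) + act H σ (f τ) = 0 := by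
        rw [← act_add, hf2, act_zero]
      rw [hf.2, s2 _ _ (hf2 σ) h7 _ (hr e)]
      congr 1
      have hr2 : σ.symm (e θ) ∈ (pol H (AlgebraicClosure F)).roots := hr (σ.symm.toAlgHom.comp e)
      have h8 := s6 (AlgebraicClosure F) (σ : AlgebraicClosure F →ₐ[F] AlgebraicClosure F) (f τ) (hf2 τ)
        _ hr2
      have h9 : (σ : AlgebraicClosure F →ₐ[F] AlgebraicClosure F) (σ.symm (e θ)) = e θ :=
        σ.apply_symm_apply _
      rw [h9] at h8
      show sg H (pointMap H (σ : AlgebraicClosure F →ₐ[F] AlgebraicClosure F) (f τ)) (e θ) = _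
      rw [h8]
      rcases s1 _ (hf2 τ) _ hr2 with h10 | h10
      · rw [h10, map_one]
      · rw [h10, map_neg, map_one])
  exact ⟨γ, δ, ⟨h3, h4, h5⟩⟩

end Pool.Agent.Q26.ESJ
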